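import Pool.Agent.Helper70.OB.Goals

open MeasureTheory Set Metric Filter
open scoped ENNReal Topology
open Pool.Agent.Helper70.MM (om om_pos om_hasDerivAt)
open Pool.Agent.Helper70.OB

namespace Pool.Agent.Helper82.OB

theorem ob_cnts : BAS → WDER → ROLLE → CNTS := by
  intro hBAS hW hR k V P m hC b hb j hj hVb hPb q hZ
  obtain ⟨hcont, -, -, -⟩ := hBAS k V P m hC
  obtain ⟨hder, -, hinf⟩ := hW k V P m hC
  obtain ⟨x, hx, hxz⟩ := hZ
  have hK : ∀ r : ℝ, 0 < r → 0 < om (k - 1) r := fun r hr => om_pos _ hr
  have hKc : ContinuousOn (om (k - 1)) (Ioi 0) := fun r hr =>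
    (om_hasDerivAt (k - 1) hr).continuousAt.continuousWithinAt
  have hsub : Ici b ⊆ Ioi (0 : ℝ) := fun r hr => lt_of_lt_of_le hb hr
  -- first Rolle
  have h1 := hR (fun r => V j r / om (k - 1) r)
    (fun r => WW k V P j r / (r ^ (2 * k - 2) * om (k - 1) r ^ 2)) b
    (((hcont j (by omega)).mono hsub).div (hKc.mono hsub) (fun r hr => (hK r (hsub hr)).ne'))
    (fun r hr => (hder j hj r (hb.trans hr)).1) q (Fin.cons b x)
    (by
      rw [Fin.strictMono_iff_lt_succ]
      intro i
      cases q with
      | zero => exact i.elim0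
      | succ q =>
        refine Fin.cases ?_ (fun i => ?_) i
        · simpa using (hxz 0).1
        · have : (i.succ).castSucc = (i.castSucc).succ := (Fin.succ_castSucc i).symm
          rw [this, Fin.cons_succ, Fin.cons_succ]
          exact hx (by
            rw [Fin.lt_def]
            simp))
    (by
      intro i
      refine Fin.cases ?_ (fun i => ?_) i
      · refine ⟨by simp, ?_⟩
        simp [hVb]
      · refine ⟨by simpa using (hxz i).1.le, ?_⟩
        simp [(hxz i).2])
  obtain ⟨⟨z, hz⟩, -⟩ := h1
  have hzb : ∀ i, b < z i := by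
    intro i
    refine lt_of_le_of_lt ?_ (hz i).1
    have : ∀ i : Fin (q + 1), b ≤ (Fin.cons b x : Fin (q + 1) → ℝ) i := by
      intro i
      refine Fin.cases ?_ (fun i => ?_) i
      · simp
      · simpa using (hxz i).1.le
    exact this _
  have hzW : ∀ i, WW k V P j (z i) = 0 := by
    intro i
    have h := (hz i).2.2
    have hp : 0 < z i ^ (2 * k - 2) * om (k - 1) (z i) ^ 2 :=
      mul_pos (pow_pos (hb.trans (hzb i)) _) (pow_pos (hK _ (hb.trans (hzb i))) _)
    rcases div_eq_zero_iff.mp h with h | h
    · exact h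
    · exact absurd h hp.ne'
  have hzm : StrictMono z := by
    intro i i' hii
    have h2 : z i < (Fin.cons b x : Fin (q + 1) → ℝ) i.succ := (hz i).2.1
    have h3 : (Fin.cons b x : Fin (q + 1) → ℝ) i'.castSucc < z i' := (hz i').1
    have h4 : (Fin.cons b x : Fin (q + 1) → ℝ) i.succ ≤
        (Fin.cons b x : Fin (q + 1) → ℝ) i'.castSucc := by
      obtain ⟨l, hl⟩ : ∃ l : Fin q, i'.castSucc = l.succ := by
        refine ⟨⟨i'.val - 1, by omega⟩, ?_⟩
        rw [Fin.ext_iff]
        have : i.val < i'.val := hii
        simp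
        omega
      rw [hl, Fin.cons_succ, Fin.cons_succ]
      refine hx.monotone ?_
      have : i.val < i'.val := hii
      have h5 := congrArg Fin.val hl
      simp at h5
      rw [Fin.le_def]
      omega
    exact h2.trans_le (h4.trans h3.le)
  have hWb : WW k V P j b = 0 := by
    simp [WW, hVb, hPb]
  -- second Rolle
  have h2 := hR (WW k V P j) (fun r => -(r ^ (2 * k - 2) * om (k - 1) r * V (j + 1) r)) b
    (fun r hr => ((hder j hj r (hsub hr)).2).continuousAt.continuousWithinAt)
    (fun r hr => (hder j hj r (hb.trans hr)).2) q (Fin.cons b z)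
    (by
      rw [Fin.strictMono_iff_lt_succ]
      intro i
      cases q with
      | zero => exact i.elim0
      | succ q =>
        refine Fin.cases ?_ (fun i => ?_) i
        · simpa using hzb 0
        · have : (i.succ).castSucc = (i.castSucc).succ := (Fin.succ_castSucc i).symm
          rw [this, Fin.cons_succ, Fin.cons_succ]
          exact hzm (by
            rw [Fin.lt_def]
            simp))
    (by
      intro i
      refine Fin.cases ?_ (fun i => ?_) i
      · exact ⟨by simp, by simpa using hWb⟩
      · exact ⟨by simpa using (hzb i).le, by simpa using hzW i⟩)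
  obtain ⟨w, hw, hwz⟩ := h2.2 (hinf j (by omega))
  refine ⟨w, hw, fun i => ⟨(hwz i).1, ?_⟩⟩
  have h := (hwz i).2
  have hp : 0 < w i ^ (2 * k - 2) * om (k - 1) (w i) :=
    mul_pos (pow_pos (hb.trans (hwz i).1) _) (hK _ (hb.trans (hwz i).1))
  have h' : w i ^ (2 * k - 2) * om (k - 1) (w i) * V (j + 1) (w i) = 0 := by
    simpa using h
  rcases mul_eq_zero.mp h' with h | h
  · exact absurd h hp.ne'
  · exact h

end Pool.Agent.Helper82.OB
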