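import Pool.Agent.Helper70.OB.GoalsE

open MeasureTheory Set Metric Filter
open scoped ENNReal Topology
open Pool.Agent.Results.MP_91ee6f_gt
open Pool.Agent.Helper70.MM (om om_zero om_one om_rel om_pos om_measurable om_succ_succ)
open Pool.Agent.Helper70.OB

namespace Pool.Agent.Helper82.OB

lemma exists_rot {n : ℕ} {x y : En n} (h : ‖x‖ = ‖y‖) : ∃ g : En n ≃ₗᵢ[ℝ] En n, g x = y := by
  refine ⟨(Submodule.span ℝ {x - y})ᗮ.reflection, ?_⟩
  exact Submodule.reflection_sub h

lemma om_lower (j : ℕ) {s : ℝ} (hs : 0 < s) (hs1 : s ≤ 1) :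
    Real.exp (-1) / s ^ (2 * j + 1) ≤ om (j + 1) s := by
  induction j with
  | zero =>
    rw [om_one]
    simp only [mul_zero, zero_add, pow_one]
    gcongr
  | succ j ih =>
    rw [om_succ_succ]
    have h1 : Real.exp (-1) / s ^ (2 * (j + 1) + 1) = Real.exp (-1) / s ^ (2 * j + 1) / s ^ 2 := by
      rw [div_div, ← pow_add]
      congr 2
    rw [h1]
    gcongr
    have h2 := om_pos j hs
    have h3 := om_pos (j + 1) hs
    have h4 : (0 : ℝ) ≤ 2 * j * om (j + 1) s := by positivity
    nlinarith

lemma om_nonneg (j : ℕ) {s : ℝ} (hs : 0 ≤ s) : 0 ≤ om j s := by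
  rcases hs.eq_or_lt with rfl | h
  · match j with
    | 0 => rw [om_zero]; positivity
    | 1 => rw [om_one]; simp
    | (j + 2) => rw [om_succ_succ]; simp
  · exact (om_pos j h).le

lemma cap_lower {n : ℕ} (hn : 1 ≤ n) (τ : Measure (En n)) [IsFiniteMeasure τ] (hR : Rot τ)
    {e : En n} (he : ‖e‖ = 1) {R' : ℝ} (hR' : 0 < R') {s : ℝ} (hs : 0 < s) (hs' : s ≤ R') :
    τ.real (sphere 0 R') * s ^ (n - 1) ≤
      2 * n * (2 * R') ^ (n - 1) * τ.real (sphere 0 R' ∩ ball (R' • e) (2 * s)) := by
  set μ := τ.restrict (sphere (0 : En n) R') with hμ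
  set T : Set (En n) := closedBall 0 (R' + s) \ closedBall 0 (R' - s) with hT
  set Cc : ℝ≥0∞ := τ (sphere 0 R' ∩ ball (R' • e) (2 * s)) with hCc
  have hmS : MeasurableSet (sphere (0 : En n) R') := isClosed_sphere.measurableSet
  have hmT : MeasurableSet T := isClosed_closedBall.measurableSet.diff
    isClosed_closedBall.measurableSet
  have hD : MeasurableSet {p : En n × En n | dist p.1 p.2 < s} :=
    (isOpen_lt continuous_dist continuous_const).measurableSet
  -- first section
  have hfirst : ∀ x ∈ T, μ {y | dist x y < s} ≤ Cc := by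
    intro x hx
    rw [hT, Set.mem_sdiff, mem_closedBall_zero_iff, mem_closedBall_zero_iff, not_le] at hx
    have hx0 : 0 < ‖x‖ := by linarith [hx.2]
    have hxx : ‖(R' / ‖x‖) • x‖ = ‖R' • e‖ := by
      rw [norm_smul, norm_smul, he, norm_div, norm_norm, mul_one]
      field_simp
    obtain ⟨g, hg⟩ := exists_rot hxx
    have hms : MeasurableSet {y : En n | dist x y < s} :=
      (isOpen_lt (continuous_const.dist continuous_id) continuous_const).measurableSet
    rw [hμ, Measure.restrict_apply hms, hCc]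
    have h3 : τ (sphere 0 R' ∩ ball (R' • e) (2 * s)) =
        τ (g ⁻¹' (sphere 0 R' ∩ ball (R' • e) (2 * s))) := by
      conv_lhs => rw [← hR g]
      exact (g.toHomeomorph.measurableEmbedding).map_apply τ _
    rw [h3]
    refine measure_mono ?_
    rintro y ⟨hy1, hy2⟩
    rw [mem_sphere_zero_iff_norm] at hy2
    refine ⟨?_, ?_⟩
    · rw [mem_sphere_zero_iff_norm, g.norm_map]
      exact hy2
    · rw [mem_ball, ← hg, g.dist_map, dist_comm]
      have h4 : dist ((R' / ‖x‖) • x) x ≤ s := by
        rw [dist_eq_norm]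
        have h5 : (R' / ‖x‖) • x - x = ((R' / ‖x‖) - 1) • x := by
          rw [sub_smul, one_smul]
        rw [h5, norm_smul, Real.norm_eq_abs]
        have h6 : |R' / ‖x‖ - 1| * ‖x‖ = |R' - ‖x‖| := by
          rw [← abs_of_pos hx0, ← abs_mul, abs_of_pos hx0]
          congr 1
          field_simp
        rw [h6, abs_le]
        constructor <;> linarith [hx.1, hx.2]
      have h7 : dist x y < s := hy1
      calc dist ((R' / ‖x‖) • x) y ≤ dist ((R' / ‖x‖) • x) x + dist x y := dist_triangle _ _ _
        _ < 2 * s := by linarith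
  -- second section
  have hsecond : ∀ y ∈ sphere (0 : En n) R',
      (volume.restrict T) {x | dist x y < s} = volume (ball (0 : En n) s) := by
    intro y hy
    rw [mem_sphere_zero_iff_norm] at hy
    have h1 : {x : En n | dist x y < s} = ball y s := rfl
    rw [h1, Measure.restrict_apply isOpen_ball.measurableSet, ← Measure.addHaar_ball_center volume y]
    congr 1
    refine inter_eq_left.mpr ?_
    intro x hx
    rw [mem_ball, dist_eq_norm] at hx
    rw [hT, Set.mem_sdiff, mem_closedBall_zero_iff, mem_closedBall_zero_iff, not_le]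
    have h2 := abs_norm_sub_norm_le x y
    rw [hy, abs_le] at h2
    constructor <;> linarith [h2.1, h2.2]
  have hI1 : ((volume.restrict T).prod μ) {p : En n × En n | dist p.1 p.2 < s} ≤
      volume T * Cc := by
    rw [Measure.prod_apply hD]
    calc ∫⁻ x in T, μ (Prod.mk x ⁻¹' {p : En n × En n | dist p.1 p.2 < s})
        ≤ ∫⁻ _ in T, Cc := by
          refine setLIntegral_mono measurable_const ?_
          intro x hx
          exact hfirst x hx
      _ = volume T * Cc := by
          rw [setLIntegral_const, mul_comm]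
  have hI2 : ((volume.restrict T).prod μ) {p : En n × En n | dist p.1 p.2 < s} =
      volume (ball (0 : En n) s) * τ (sphere 0 R') := by
    rw [Measure.prod_apply_symm hD]
    calc ∫⁻ y, (volume.restrict T) ((fun x => (x, y)) ⁻¹' {p : En n × En n | dist p.1 p.2 < s}) ∂μ
        = ∫⁻ _ in sphere (0 : En n) R', volume (ball (0 : En n) s) ∂τ := by
          refine setLIntegral_congr_fun hmS ?_
          intro y hy
          exact hsecond y hy
      _ = _ := by rw [setLIntegral_const]
  have hmain := hI2.symm.le.trans hI1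
  have hTfin : volume T ≠ ∞ :=
    ((measure_mono sdiff_subset).trans_lt (isCompact_closedBall (0 : En n) _).measure_lt_top).ne
  have hr : volume.real (ball (0 : En n) s) * τ.real (sphere 0 R') ≤
      volume.real T * τ.real (sphere 0 R' ∩ ball (R' • e) (2 * s)) := by
    have h1 := ENNReal.toReal_mono (ENNReal.mul_ne_top hTfin (measure_ne_top τ _)) hmain
    rw [ENNReal.toReal_mul, ENNReal.toReal_mul] at h1
    exact h1
  have hVT : volume.real T = ((R' + s) ^ n - (R' - s) ^ n) * volume.real (ball (0 : En n) 1) := by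
    rw [hT, measureReal_sdiff (closedBall_subset_closedBall (by linarith))
      isClosed_closedBall.measurableSet (isCompact_closedBall (0 : En n) _).measure_lt_top.ne, Measure.addHaar_real_closedBall volume _ (by linarith),
      Measure.addHaar_real_closedBall volume _ (by linarith)]
    simp only [finrank_euclideanSpace, Fintype.card_fin]
    ring
  have hVb : volume.real (ball (0 : En n) s) = s ^ n * volume.real (ball (0 : En n) 1) := by
    rw [measureReal_def, Measure.addHaar_ball_of_pos volume _ hs, ENNReal.toReal_mul,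
      ENNReal.toReal_ofReal (by positivity)]
    simp [measureReal_def]
  have hω : 0 < volume.real (ball (0 : En n) 1) := by
    rw [measureReal_def]
    exact ENNReal.toReal_pos (measure_ball_pos volume _ one_pos).ne'
      (measure_ball_lt_top).ne
  rw [hVT, hVb] at hr
  have hr2 : s ^ n * τ.real (sphere 0 R') ≤ ((R' + s) ^ n - (R' - s) ^ n) *
      τ.real (sphere 0 R' ∩ ball (R' • e) (2 * s)) := by
    have h1 : (s ^ n * τ.real (sphere 0 R')) * volume.real (ball (0 : En n) 1) ≤
        (((R' + s) ^ n - (R' - s) ^ n) * τ.real (sphere 0 R' ∩ ball (R' • e) (2 * s))) *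
          volume.real (ball (0 : En n) 1) := by
      calc _ = s ^ n * volume.real (ball (0 : En n) 1) * τ.real (sphere 0 R') := by ring
        _ ≤ _ := hr
        _ = _ := by ring
    exact le_of_mul_le_mul_right h1 hω
  have hpow : (R' + s) ^ n - (R' - s) ^ n ≤ 2 * s * n * (2 * R') ^ (n - 1) := by
    have h1 := abs_pow_sub_pow_le (a := R' + s) (b := R' - s) (n := n)
    have h2 : |R' + s - (R' - s)| = 2 * s := by
      rw [show R' + s - (R' - s) = 2 * s by ring, abs_of_pos (by linarith)]
    have h3 : max |R' + s| |R' - s| ≤ 2 * R' := by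
      rw [abs_of_pos (by linarith), abs_of_nonneg (by linarith)]
      exact max_le (by linarith) (by linarith)
    rw [h2] at h1
    refine (le_abs_self _).trans (h1.trans ?_)
    gcongr
  have hC0 : 0 ≤ τ.real (sphere 0 R' ∩ ball (R' • e) (2 * s)) := measureReal_nonneg
  have hsn : s ^ n = s * s ^ (n - 1) := by
    rw [← pow_succ']
    congr 1
    omega
  have h5 : s * (τ.real (sphere 0 R') * s ^ (n - 1)) ≤
      s * (2 * n * (2 * R') ^ (n - 1) * τ.real (sphere 0 R' ∩ ball (R' • e) (2 * s))) := by
    calc s * (τ.real (sphere 0 R') * s ^ (n - 1)) = s ^ n * τ.real (sphere 0 R') := by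
          rw [hsn]; ring
      _ ≤ _ := hr2
      _ ≤ (2 * s * n * (2 * R') ^ (n - 1)) * τ.real (sphere 0 R' ∩ ball (R' • e) (2 * s)) := by
          gcongr
      _ = _ := by ring
  exact le_of_mul_le_mul_left h5 hs

/-- geometric sums of indicator functions -/
lemma geo_sum {q x : ℝ} (hq : 2 ≤ q) (m : ℕ) (hm : q = 2 ^ m) (hx : 0 < x) (N : ℕ) :
    ∑ i ∈ Finset.range N, (if (2 : ℝ) ^ i < x then q ^ i else 0) ≤ 2 * x ^ m := by
  induction N with
  | zero => simp; positivity
  | succ N ih =>
    by_cases h : (2 : ℝ) ^ N < x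
    · have h1 : ∀ N : ℕ, ∑ i ∈ Finset.range (N + 1), q ^ i ≤ 2 * q ^ N := by
        intro N
        induction N with
        | zero => simp
        | succ N ih2 =>
          rw [Finset.sum_range_succ]
          have : 2 * q ^ N ≤ q ^ (N + 1) := by
            rw [pow_succ']
            gcongr
          linarith
      calc ∑ i ∈ Finset.range (N + 1), (if (2 : ℝ) ^ i < x then q ^ i else 0)
          ≤ ∑ i ∈ Finset.range (N + 1), q ^ i := by
            refine Finset.sum_le_sum ?_
            intro i _
            split_ifs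
            · exact le_rfl
            · positivity
        _ ≤ 2 * q ^ N := h1 N
        _ = 2 * ((2 : ℝ) ^ N) ^ m := by
            rw [hm, ← pow_mul, ← pow_mul, mul_comm m N]
        _ ≤ 2 * x ^ m := by gcongr
    · rw [Finset.sum_range_succ, if_neg h, add_zero]
      exact ih

theorem ob_blow : BLOW := by
  intro n k hk hn τ hfin hRot e he R' hR' hpos M
  have := hfin
  have hn1 : 1 ≤ n := by omega
  set mass := τ.real (sphere (0 : En n) R') with hmass
  have hmass0 : 0 < mass := ENNReal.toReal_pos hpos.ne' (measure_ne_top τ _)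
  -- constants
  set ρ : ℝ := min 1 (2 * R') with hρ
  have hρ0 : 0 < ρ := lt_min one_pos (by linarith)
  have hρ1 : ρ ≤ 1 := min_le_left _ _
  have hρR : ρ ≤ 2 * R' := min_le_right _ _
  set c₁ : ℝ := Real.exp (-1) with hc₁
  have hc₁0 : 0 < c₁ := Real.exp_pos _
  set q : ℝ := 2 ^ (n - 1) with hq
  have hq2 : 2 ≤ q := by
    rw [hq]
    calc (2 : ℝ) = 2 ^ 1 := by norm_num
      _ ≤ 2 ^ (n - 1) := pow_le_pow_right₀ (by norm_num) (by omega)
  set D : ℝ := 2 * n * (2 * R') ^ (n - 1) with hD
  have hD0 : 0 < D := by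
    have : (0 : ℝ) < n := by exact_mod_cast hn1
    positivity
  set κ : ℝ := c₁ / (2 * ρ ^ (n - 1)) * (mass * (ρ / 4) ^ (n - 1) / D) with hκ
  have hκ0 : 0 < κ := by positivity
  obtain ⟨N, hN⟩ := exists_nat_ge (M / κ)
  have hNM : M ≤ N * κ := by
    rw [div_le_iff₀ hκ0] at hN
    exact hN
  refine ⟨min R' (ρ / 2 / 2 ^ N), lt_min hR' (by positivity), ?_⟩
  intro r hr hrne hint
  have hr1 : |r - R'| < R' := lt_of_lt_of_le hr (min_le_left _ _)
  have hr2 : |r - R'| < ρ / 2 / 2 ^ N := lt_of_lt_of_le hr (min_le_right _ _)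
  have hr0 : 0 < r := by
    rw [abs_lt] at hr1
    linarith [hr1.1]
  have hmS : MeasurableSet (sphere (0 : En n) R') := isClosed_sphere.measurableSet
  -- the pointwise bound
  have hpt : ∀ y ∈ sphere (0 : En n) R',
      ∑ i ∈ Finset.range N, (c₁ / (2 * ρ ^ (n - 1)) * q ^ i) *
        (ball (r • e) (ρ / 2 ^ i)).indicator (fun _ => (1 : ℝ)) y ≤ om k (dist (r • e) y) := by
    intro y hy
    rw [mem_sphere_zero_iff_norm] at hy
    have hd : 0 < dist (r • e) y := by
      rw [dist_pos]
      rintro rfl
      rw [norm_smul, he, mul_one, Real.norm_eq_abs, abs_of_pos hr0] at hy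
      exact hrne hy
    set d := dist (r • e) y with hdd
    have hsum : ∑ i ∈ Finset.range N, (c₁ / (2 * ρ ^ (n - 1)) * q ^ i) *
        (ball (r • e) (ρ / 2 ^ i)).indicator (fun _ => (1 : ℝ)) y =
        c₁ / (2 * ρ ^ (n - 1)) *
          ∑ i ∈ Finset.range N, (if (2 : ℝ) ^ i < ρ / d then q ^ i else 0) := by
      rw [Finset.mul_sum]
      refine Finset.sum_congr rfl ?_
      intro i _
      have hiff : y ∈ ball (r • e) (ρ / 2 ^ i) ↔ (2 : ℝ) ^ i < ρ / d := by
        rw [mem_ball, dist_comm, ← hdd, lt_div_iff₀ (by positivity), lt_div_iff₀ hd, mul_comm]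
      by_cases h : (2 : ℝ) ^ i < ρ / d
      · rw [if_pos h, indicator_of_mem (hiff.mpr h), mul_one]
      · rw [if_neg h, indicator_of_notMem (fun hh => h (hiff.mp hh)), mul_zero, mul_zero]
    rw [hsum]
    by_cases hd1 : d ≤ 1
    · have h1 := geo_sum hq2 (n - 1) hq (div_pos hρ0 hd) N
      have h2 : c₁ / d ^ (n - 1) ≤ om k d := by
        have h3 := om_lower (k - 1) hd hd1
        have h4 : 2 * (k - 1) + 1 = n - 1 := by omega
        have h5 : k - 1 + 1 = k := by omega
        rw [h4, h5] at h3
        exact h3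
      calc c₁ / (2 * ρ ^ (n - 1)) *
          ∑ i ∈ Finset.range N, (if (2 : ℝ) ^ i < ρ / d then q ^ i else 0)
          ≤ c₁ / (2 * ρ ^ (n - 1)) * (2 * (ρ / d) ^ (n - 1)) := by gcongr
        _ = c₁ / d ^ (n - 1) := by
            rw [div_pow]
            have : ρ ^ (n - 1) ≠ 0 := by positivity
            field_simp
        _ ≤ _ := h2
    · have h1 : ∑ i ∈ Finset.range N, (if (2 : ℝ) ^ i < ρ / d then q ^ i else 0) = 0 := by
        refine Finset.sum_eq_zero ?_
        intro i _
        rw [if_neg]
        rw [not_lt]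
        push Not at hd1
        calc ρ / d ≤ 1 / 1 := by
              gcongr
          _ = 1 := by norm_num
          _ ≤ 2 ^ i := one_le_pow₀ (by norm_num)
      rw [h1, mul_zero]
      exact om_nonneg k hd.le
  -- integrate
  have hi : ∀ i ∈ Finset.range N, mass * (ρ / 4) ^ (n - 1) / D / q ^ i ≤
      (τ.restrict (sphere 0 R')).real (ball (r • e) (ρ / 2 ^ i)) := by
    intro i hiN
    rw [Finset.mem_range] at hiN
    have hs : 0 < ρ / 4 / 2 ^ i := by positivity
    have hs1 : ρ / 4 / 2 ^ i ≤ R' := by
      calc ρ / 4 / 2 ^ i ≤ ρ / 4 / 1 := by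
            gcongr
            exact one_le_pow₀ (by norm_num)
        _ ≤ R' := by linarith
    have h1 := cap_lower hn1 τ hRot he hR' hs hs1
    rw [measureReal_restrict_apply isOpen_ball.measurableSet]
    have h2 : τ.real (sphere 0 R' ∩ ball (R' • e) (2 * (ρ / 4 / 2 ^ i))) ≤
        τ.real (ball (r • e) (ρ / 2 ^ i) ∩ sphere 0 R') := by
      refine measureReal_mono ?_
      rintro y ⟨hy1, hy2⟩
      refine ⟨?_, hy1⟩
      rw [mem_ball] at hy2 ⊢
      have h3 : dist (R' • e) (r • e) ≤ ρ / 2 / 2 ^ i := by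
        rw [dist_eq_norm, ← sub_smul, norm_smul, he, mul_one, Real.norm_eq_abs, abs_sub_comm]
        refine hr2.le.trans ?_
        gcongr
        norm_num
      calc dist y (r • e) ≤ dist y (R' • e) + dist (R' • e) (r • e) := dist_triangle _ _ _
        _ < 2 * (ρ / 4 / 2 ^ i) + ρ / 2 / 2 ^ i := by linarith
        _ = ρ / 2 ^ i := by ring
    refine le_trans ?_ h2
    rw [← hmass, ← hD] at h1
    have h4 : mass * (ρ / 4 / 2 ^ i) ^ (n - 1) / D ≤
        τ.real (sphere 0 R' ∩ ball (R' • e) (2 * (ρ / 4 / 2 ^ i))) := by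
      rw [div_le_iff₀ hD0]
      calc _ ≤ _ := h1
        _ = _ := by ring
    refine le_trans (le_of_eq ?_) h4
    rw [hq, div_pow (ρ / 4), ← pow_mul, ← pow_mul, mul_comm (n - 1) i]
    ring
  have hint' : Integrable (fun y => om k (dist (r • e) y)) (τ.restrict (sphere 0 R')) :=
    hint.restrict
  have hsumint : Integrable (fun y => ∑ i ∈ Finset.range N, (c₁ / (2 * ρ ^ (n - 1)) * q ^ i) *
        (ball (r • e) (ρ / 2 ^ i)).indicator (fun _ => (1 : ℝ)) y)
      (τ.restrict (sphere 0 R')) := by
    refine integrable_finsetSum _ ?_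
    intro i _
    refine Integrable.const_mul ?_ _
    exact (integrable_const (1 : ℝ)).indicator isOpen_ball.measurableSet
  calc M ≤ N * κ := hNM
    _ = ∑ i ∈ Finset.range N, (c₁ / (2 * ρ ^ (n - 1)) * q ^ i) *
        (mass * (ρ / 4) ^ (n - 1) / D / q ^ i) := by
        have h1 : ∀ i ∈ Finset.range N, (c₁ / (2 * ρ ^ (n - 1)) * q ^ i) *
            (mass * (ρ / 4) ^ (n - 1) / D / q ^ i) = κ := by
          intro i _
          rw [hκ]
          have : q ^ i ≠ 0 := by positivity
          field_simp
        rw [Finset.sum_congr rfl h1, Finset.sum_const, Finset.card_range, nsmul_eq_mul]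
    _ ≤ ∑ i ∈ Finset.range N, (c₁ / (2 * ρ ^ (n - 1)) * q ^ i) *
        (τ.restrict (sphere 0 R')).real (ball (r • e) (ρ / 2 ^ i)) := by
        refine Finset.sum_le_sum ?_
        intro i hiN
        have := hi i hiN
        gcongr
    _ = ∫ y in sphere (0 : En n) R', ∑ i ∈ Finset.range N, (c₁ / (2 * ρ ^ (n - 1)) * q ^ i) *
        (ball (r • e) (ρ / 2 ^ i)).indicator (fun _ => (1 : ℝ)) y ∂τ := by
        rw [integral_finsetSum]
        · refine Finset.sum_congr rfl ?_
          intro i _
          rw [integral_const_mul, integral_indicator isOpen_ball.measurableSet]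
          simp
        · intro i _
          refine Integrable.const_mul ?_ _
          exact (integrable_const (1 : ℝ)).indicator isOpen_ball.measurableSet
    _ ≤ ∫ y in sphere (0 : En n) R', om k (dist (r • e) y) ∂τ := by
        refine setIntegral_mono_on hsumint hint' hmS ?_
        intro y hy
        exact hpt y hy
    _ ≤ ∫ y, om k (dist (r • e) y) ∂τ := by
        refine setIntegral_le_integral hint ?_
        exact Filter.Eventually.of_forall (fun y => om_nonneg k dist_nonneg)
    _ = gj τ e k r := rfl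

end Pool.Agent.Helper82.OB
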