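import Pool.Agent.Helper73.OB.GoalsB

/-!
# Packet OB-EX: the exchanged system is typed Markov.
-/

open MeasureTheory ProbabilityTheory
open scoped ENNReal

namespace Pool.Agent.Helper82.OB

open Pool.Agent.Helper73.OB

section gen

variable {S X : Type}

theorem meas_sig {L : Type} [MeasurableSpace L] (f : S → X → X) (s : X → L) {Q : Set (List S)}
    {w : List S} (hw : w ∈ Q) : @Measurable X L (sig f s Q) _ (fun x => s (run f w x)) :=
  (comap_measurable _).mono (le_iSup₂_of_le w hw le_rfl) le_rfl

theorem sig_le {L : Type} [mX : MeasurableSpace X] [MeasurableSpace L] {f : S → X → X} {s : X → L}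
    (hs : Measurable s) (hf : ∀ w, Measurable (run f w)) (Q : Set (List S)) : sig f s Q ≤ mX := by
  refine iSup₂_le fun w _ => ?_
  exact (hs.comp (hf w)).comap_le

theorem Red_iff {β β' : S → S} {p : Bit → S} (h : ∀ a, a ∉ Set.range p → β a = β' a) {w : List S}
    (hw : IsH p w) : Red β w ↔ Red β' w := by
  unfold Red
  induction w with
  | nil => simp
  | cons a w ih =>
    cases w with
    | nil => simp
    | cons b w =>
      rw [List.isChain_cons_cons, List.isChain_cons_cons, h a (hw a (by simp)),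
        ih fun c hc => hw c (by simp [hc])]

theorem run_H {f g : S → X → X} {p : Bit → S} (h : ∀ a, a ∉ Set.range p → g a = f a) {w : List S}
    (hw : IsH p w) (x : X) : run g w x = run f w x := by
  induction w generalizing x with
  | nil => rfl
  | cons a w ih =>
    rw [run_cons, run_cons, h a (hw a (by simp)), ih fun c hc => hw c (by simp [hc])]

theorem cos_transport [MeasurableSpace X] {μ : Measure X} {e : unitInterval} {P Q : List S → Prop}
    (h : P = Q) (F : List S → X → Sk)
    (hm : MeasurePreserving (fun x (h : {w // P w}) => F h.1 x) μ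
      (Measure.infinitePi fun _ : {w // P w} => kap e)) :
    MeasurePreserving (fun x (h : {w // Q w}) => F h.1 x) μ
      (Measure.infinitePi fun _ : {w // Q w} => kap e) := by
  subst h
  exact hm

theorem mu_congr [MeasurableSpace X] {μ : Measure X} {G A B : Set X} (hG : μ Gᶜ = 0)
    (h : ∀ x ∈ G, (x ∈ A ↔ x ∈ B)) : μ A = μ B := by
  have h1 : ∀ᵐ x ∂μ, x ∈ G := by
    rw [ae_iff]
    exact hG
  exact measure_congr (h1.mono fun x hx => propext (h x hx))

end gen

section ex

variable {S X : Type} [Finite S] [MeasurableSpace X] {βZ βD : S → S} {p : Bit → S}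
  {μ : Measure X} {f g : S → X → X} {s : X → Sk} {K K' : Bit → Bit → X → List S} {G : Set X}

theorem run_G (hE : Exch βZ βD p μ f g s K K' G) (w : List S) {x : X} (hx : x ∈ G) :
    run f w x ∈ G := by
  induction w generalizing x with
  | nil => exact hx
  | cons a w ih => exact ih (hE.G_f a x hx)

theorem meas_bit (hE : Exch βZ βD p μ f g s K K' G) (d z : Bit) :
    Measurable fun x => (s x).2.1 d z :=
  (measurable_pi_apply z).comp ((measurable_pi_apply d).comp hE.meas.snd.fst)

theorem meas_fibre (hE : Exch βZ βD p μ f g s K K' G) (d z c : Bit) :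
    MeasurableSet {x | (s x).2.1 d z = c} :=
  (meas_bit hE d z) (measurableSet_singleton c)

theorem meas_K' (hE : Exch βZ βD p μ f g s K K' G) (z c : Bit) (h : List S) :
    MeasurableSet {x | K' z c x = h} := by
  have h1 : @MeasurableSet X (sig f s {w | Red βZ w ∧ IsH p w}) {x | K' z c x = h} :=
    (hE.K'_meas z c) (t := {h}) trivial
  exact sig_le hE.meas (fun w => (hE.sysZ.run_mp w).measurable) _ _ h1

/-- `θ_{(z,c)}` is measure preserving. -/
theorem TH (hE : Exch βZ βD p μ f g s K K' G) (z c : Bit) {B : Set X} (hB : MeasurableSet B) :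
    μ ({x | (s x).2.1 0 z = c} ∩ {x | run f (K z c x) x ∈ B}) =
      μ ({x | (s x).2.1 1 c = z} ∩ B) := by
  set P : List S → Set X := fun h =>
    {x | x ∈ G ∧ (s x).2.1 0 z = c ∧ K z c x = h ∧ run f (K z c x) x ∈ B} with hP
  set Q : List S → Set X := fun h =>
    {x | x ∈ G ∧ (s x).2.1 1 c = z ∧ K' z c x = invw βZ h ∧ x ∈ B} with hQ
  have hinv : ∀ h : List S, invw βZ (invw βZ h) = h := invw_invw hE.frZ.inv
  have hPQ : ∀ h, P h = run f h ⁻¹' Q h := by
    intro h
    ext x
    constructor
    · rintro ⟨h1, h2, h3, h4⟩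
      obtain ⟨h5, h6⟩ := hE.th z c x h1 h2
      rw [h3] at h4 h5 h6
      exact ⟨run_G hE h h1, h5, h6, h4⟩
    · rintro ⟨h1, h2, h3, h4⟩
      obtain ⟨h5, h6⟩ := hE.th' z c (run f h x) h1 h2
      have h7 : run f (K' z c (run f h x)) (run f h x) = x := by
        rw [h3]
        exact run_invw hE.sysZ.inv h x
      rw [h7] at h5 h6
      rw [h3, hinv] at h6
      have h8 : x ∈ G := by
        have := run_G hE (K' z c (run f h x)) h1
        rwa [h7] at this
      refine ⟨h8, h5, h6, ?_⟩
      rw [h6]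
      exact h4
  have hQm : ∀ h, MeasurableSet (Q h) := fun h =>
    hE.G_meas.inter ((meas_fibre hE 1 c z).inter ((meas_K' hE z c _).inter hB))
  have hPm : ∀ h, MeasurableSet (P h) := fun h => by
    rw [hPQ h]
    exact (hE.sysZ.run_mp h).measurable (hQm h)
  have hμ : ∀ h, μ (P h) = μ (Q h) := fun h => by
    rw [hPQ h]
    exact (hE.sysZ.run_mp h).measure_preimage (hQm h).nullMeasurableSet
  have hPd : Pairwise (Function.onFun Disjoint P) := by
    intro h h' hh
    refine Set.disjoint_left.2 fun x hx hx' => hh ?_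
    exact hx.2.2.1.symm.trans hx'.2.2.1
  have hQd : Pairwise (Function.onFun Disjoint Q) := by
    intro h h' hh
    refine Set.disjoint_left.2 fun x hx hx' => hh ?_
    have h1 : invw βZ h = invw βZ h' := hx.2.2.1.symm.trans hx'.2.2.1
    rw [← hinv h, h1, hinv]
  have e1 : μ (⋃ h, P h) = μ (⋃ h, Q h) := by
    rw [measure_iUnion hPd hPm, measure_iUnion hQd hQm]
    exact tsum_congr hμ
  have e2 : μ ({x | (s x).2.1 0 z = c} ∩ {x | run f (K z c x) x ∈ B}) = μ (⋃ h, P h) := by
    refine mu_congr hE.G_full fun x hx => ?_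
    rw [Set.mem_iUnion]
    constructor
    · rintro ⟨h1, h2⟩
      exact ⟨K z c x, hx, h1, rfl, h2⟩
    · rintro ⟨h, _, h1, _, h2⟩
      exact ⟨h1, h2⟩
  have e3 : μ ({x | (s x).2.1 1 c = z} ∩ B) = μ (⋃ h, Q h) := by
    refine mu_congr hE.G_full fun x hx => ?_
    rw [Set.mem_iUnion]
    constructor
    · rintro ⟨h1, h2⟩
      exact ⟨invw βZ (K' z c x), hx, h1, (hinv _).symm, h2⟩
    · rintro ⟨h, _, h1, _, h2⟩
      exact ⟨h1, h2⟩
  rw [e2, e3, e1]

/-- The events of the new side pulled back by `θ_{(z,c)}`. -/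
theorem transport [IsProbabilityMeasure μ] (hloc : S_LOC) (hE : Exch βZ βD p μ f g s K K' G)
    (z c : Bit) {E : Set X} (hE' : MeasurableSet[sig g s (Side βD (p c))] E) :
    ∃ E' : Set X, MeasurableSet[sig f s (Side βZ (p z))] E' ∧
      ∀ x ∈ G, (s x).2.1 0 z = c → (run f (K z c x) x ∈ E ↔ x ∈ E') := by
  obtain ⟨B, hB, rfl⟩ := sig_iff.1 hE'
  choose U hU1 hU2 hU3 hU4 using fun w : Side βD (p c) =>
    hloc S βZ βD p X μ f g s K K' G hE w.1 z c w.2.1 w.2.2
  refine ⟨(fun x (w : Side βD (p c)) => s (run f (U w x) x)) ⁻¹' B, ?_, ?_⟩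
  · have hm : @Measurable X (Side βD (p c) → Sk) (sig f s (Side βZ (p z))) MeasurableSpace.pi
        (fun x (w : Side βD (p c)) => s (run f (U w x) x)) := by
      refine @measurable_pi_lambda X _ _ (sig f s (Side βZ (p z))) _ _ fun w => ?_
      intro T hT
      have e : (fun x => s (run f (U w x) x)) ⁻¹' T =
          ⋃ u : List S, ({x | U w x = u} ∩ (fun x => s (run f u x)) ⁻¹' T) := by
        ext x
        rw [Set.mem_iUnion]
        constructor
        · intro h
          exact ⟨U w x, rfl, h⟩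
        · rintro ⟨u, h1, h2⟩
          have h1' : U w x = u := h1
          show s (run f (U w x) x) ∈ T
          rw [h1']
          exact h2
      rw [e]
      refine @MeasurableSet.iUnion X (List S) (sig f s (Side βZ (p z))) _ _ fun u => ?_
      by_cases hu : u ∈ Side βZ (p z)
      · refine @MeasurableSet.inter X (sig f s (Side βZ (p z))) _ _ ?_ ?_
        · exact (hU1 w) (t := {u}) trivial
        · exact (meas_sig f s hu) hT
      · have e2 : {x | U w x = u} ∩ (fun x => s (run f u x)) ⁻¹' T = ∅ := by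
          rw [Set.eq_empty_iff_forall_notMem]
          rintro x ⟨h1, _⟩
          have h1' : U w x = u := h1
          exact hu (h1' ▸ ⟨hU2 w x, hU3 w x⟩)
        rw [e2]
        exact @MeasurableSet.empty X (sig f s (Side βZ (p z)))
    exact hm hB
  · intro x hx hc
    have e : (fun (w : Side βD (p c)) => s (run g w.1 (run f (K z c x) x))) =
        fun w => s (run f (U w x) x) := funext fun w => by rw [hU4 w x hx hc]
    rw [Set.mem_preimage, Set.mem_preimage, e]

end ex

theorem bit_add_two : ∀ c : Bit, c + 1 + 1 = c := by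
  decide

theorem ex (hloc : S_LOC) : S_EX := by
  intro S _ βZ βD p e X _ μ _ f g s K K' G hE hT
  have hcos : (fun w : List S => Red βZ w ∧ IsH p w) = fun w => Red βD w ∧ IsH p w := by
    funext w
    apply propext
    constructor
    · rintro ⟨h1, h2⟩
      exact ⟨(Red_iff hE.βeq h2).1 h1, h2⟩
    · rintro ⟨h1, h2⟩
      exact ⟨(Red_iff hE.βeq h2).2 h1, h2⟩
  refine ⟨hE.meas, ?_, ?_⟩
  · have h1 := cos_transport hcos (fun w x => s (run f w x)) hT.cos
    have h2 : (fun x (h : {w : List S // Red βD w ∧ IsH p w}) => s (run f h.1 x)) =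
        fun x (h : HW βD p) => s (run g h.1 x) := by
      funext x h
      rw [run_H hE.g_H h.2.2]
    rw [← h2]
    exact h1
  · intro c z E F hEm hFm
    have hβ : βD (p c) = p c := by
      rw [hE.frD.bp, bit_add_two c]
    have hβZ : βZ (p z) = p (z + 1) := by
      rw [hE.frZ.bp, add_zero]
    have hc2 : c + 1 + 1 = c := bit_add_two c
    rw [hβ] at hFm
    have hle : ∀ Q, sig g s Q ≤ _ := sig_le hE.meas fun w => (hE.sysD.run_mp w).measurable
    have hE1 : MeasurableSet E := hle _ _ hEm
    have hF1 : MeasurableSet F := hle _ _ hFm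
    obtain ⟨E', hE'm, hE'⟩ := transport hloc hE z c hEm
    obtain ⟨F', hF'm, hF'⟩ := transport hloc hE (z + 1) c hFm
    have hglue := hT.glue z c E' F' hE'm (by rw [hβZ]; exact hF'm)
    rw [add_zero, add_zero] at hglue
    have e1 : μ ({x | (s x).2.1 1 c = z} ∩ E ∩ g (p c) ⁻¹' F) =
        μ ({x | (s x).2.1 0 z = c} ∩ E' ∩ f (p z) ⁻¹' F') := by
      rw [Set.inter_assoc, ← TH hE z c (hE1.inter ((hE.sysD.mp (p c)).measurable hF1))]
      refine mu_congr hE.G_full fun x hx => ?_
      by_cases hxc : (s x).2.1 0 z = c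
      · obtain ⟨h5, h6⟩ := hE.th z c x hx hxc
        have h7 : f (p z) (run f (K' z c (run f (K z c x) x)) (run f (K z c x) x)) =
            f (p z) x := by
          rw [h6, run_invw hE.sysZ.inv]
        have h8 := hE.g_P c (run f (K z c x) x) (run_G hE _ hx) z h5.symm _ rfl
        rw [h7] at h8
        have h9 : (s (f (p z) x)).2.1 0 (z + 1) = c := (hE.edge x hx z).trans hxc
        have h10 := hF' (f (p z) x) (hE.G_f _ _ hx) h9
        have h11 := hE' x hx hxc
        constructor
        · rintro ⟨_, h12, h13⟩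
          have h13' : g (p c) (run f (K z c x) x) ∈ F := h13
          rw [h8] at h13'
          exact ⟨⟨hxc, h11.1 h12⟩, h10.1 h13'⟩
        · rintro ⟨⟨_, h12⟩, h13⟩
          refine ⟨hxc, h11.2 h12, ?_⟩
          show g (p c) (run f (K z c x) x) ∈ F
          rw [h8]
          exact h10.2 h13
      · constructor
        · rintro ⟨h12, _⟩
          exact absurd h12 hxc
        · rintro ⟨⟨h12, _⟩, _⟩
          exact absurd h12 hxc
    have e2 : μ ({x | (s x).2.1 0 z = c} ∩ E') = μ ({x | (s x).2.1 1 c = z} ∩ E) := by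
      rw [← TH hE z c hE1]
      refine mu_congr hE.G_full fun x hx => ?_
      constructor
      · rintro ⟨h1, h2⟩
        exact ⟨h1, (hE' x hx h1).2 h2⟩
      · rintro ⟨h1, h2⟩
        exact ⟨h1, (hE' x hx h1).1 h2⟩
    have e3 : μ ({x | (s x).2.1 0 (z + 1) = c} ∩ F') = μ ({x | (s x).2.1 1 c = z + 1} ∩ F) := by
      rw [← TH hE (z + 1) c hF1]
      refine mu_congr hE.G_full fun x hx => ?_
      constructor
      · rintro ⟨h1, h2⟩
        exact ⟨h1, (hF' x hx h1).2 h2⟩
      · rintro ⟨h1, h2⟩
        exact ⟨h1, (hF' x hx h1).1 h2⟩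
    rw [e1, hglue, e2, e3, hc2]

end Pool.Agent.Helper82.OB
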