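import Pool.Agent.Helper73.OB.GoalsA

/-!
# Packet OB-SKEW: random coordinatewise maps.
-/

set_option autoImplicit false

open MeasureTheory

namespace Pool.Agent.Helper82.OB

open Pool.Agent.Helper73.OB

theorem skew : S_SKEW := by
  intro ι A B C _ _ _ _ α ν ν' _ _ _ T hT hmap
  refine MeasurePreserving.skew_product (f := fun a : A => a)
    (g := fun (a : A) (b : ι → B) (i : ι) => T a i (b i)) (MeasurePreserving.id α) ?_ ?_
  · refine measurable_pi_iff.2 fun i => ?_
    exact (hT i).comp (measurable_fst.prodMk ((measurable_pi_apply i).comp measurable_snd))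
  · refine Filter.Eventually.of_forall fun a => ?_
    have h1 : ∀ i, Measurable (T a i) := fun i => (hT i).comp (measurable_const.prodMk measurable_id)
    have h2 := Measure.infinitePi_map_pi (μ := fun _ : ι => ν) (f := fun i => T a i) h1
    rw [h2]
    simp only [hmap a]

end Pool.Agent.Helper82.OB
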